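import Pool.Agent.H.MP_bb030f_lc.Red

set_option autoImplicit false

namespace Pool.Agent.Results.MP_bb030f_lc.Full

open Pool.Agent.Lib.CX Pool.Agent.H.MP_bb030f_lc

/-- Every maximal clique meets every maximal stable set. -/
def CIS {V : Type} (G : SimpleGraph V) : Prop :=
  ∀ C S : Set V, Maximal G.IsClique C → Maximal G.IsIndepSet S → (C ∩ S).Nonempty

def MI (a : Gr) (S : List ℕ) : Prop :=
  (∀ x ∈ S, ∀ y ∈ S, a.adjB x y = false) ∧ ∀ x < a.n, x ∈ S ∨ ∃ s ∈ S, a.adjB s x = true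

lemma MI_max (a : Gr) (S : List ℕ) (h : MI a S) : Maximal a.G.IsIndepSet {x | x.1 ∈ S} :=
  (max_iff _ _).2 ⟨fun x hx y hy e => by simpa [(a.adjB_iff x y).2 e] using h.1 x hx y hy,
    fun x hx => by
      obtain ⟨s, h7, h8⟩ := (h.2 x x.2).resolve_left hx
      have : s < a.n := by
        simp only [Gr.adjB, decide_eq_true_eq] at h8
        exact h8.1
      exact ⟨⟨s, this⟩, h7, (a.adjB_iff _ _).1 h8⟩⟩

lemma max_MI (a : Gr) (T : Set (Fin a.n)) (h : Maximal a.G.IsIndepSet T) :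
    ∃ S : List ℕ, S.Sublist (List.range a.n) ∧ MI a S ∧ ∀ x, x ∈ S ↔ ∃ y ∈ T, y.1 = x := by
  classical
  obtain ⟨h1, h2⟩ := (max_iff _ _).1 h
  have m : ∀ x, x ∈ (List.range a.n).filter (fun x => ∃ y ∈ T, y.1 = x) ↔ ∃ y ∈ T, y.1 = x :=
    fun x => by
      simp only [List.mem_filter, List.mem_range, decide_eq_true_eq, and_iff_right_iff_imp]
      rintro ⟨y, -, rfl⟩
      exact y.2
  refine ⟨_, List.filter_sublist, ?_, m⟩
  simp only [MI, m]
  refine ⟨?_, fun x hx => ?_⟩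
  · rintro _ ⟨x, hx, rfl⟩ _ ⟨y, hy, rfl⟩
    exact Bool.eq_false_iff.2 fun e => h1 x hx y hy ((a.adjB_iff _ _).1 e)
  · by_cases h7 : (⟨x, hx⟩ : Fin a.n) ∈ T
    · exact .inl ⟨_, h7, rfl⟩
    · obtain ⟨s, h8, h9⟩ := h2 _ h7
      exact .inr ⟨s, ⟨s, h8, rfl⟩, (a.adjB_iff _ _).2 h9⟩

lemma co_iff (a : Gr) : a.co.G.IsIndepSet = a.G.IsClique := by
  ext s
  rw [Gr.co_G]
  exact SimpleGraph.isIndepSet_compl _

instance (a : Gr) (S : List ℕ) : Decidable (MI a S) := by unfold MI; infer_instance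

lemma np : InNP fun a : Gr => ¬ CIS a.G := by
  refine InNP.of_cert' (fun (a : Gr) (c : List ℕ × List ℕ) =>
    MI a.co c.1 ∧ MI a c.2 ∧ ∀ x ∈ c.1, x ∉ c.2)
    (fun a => size (List.range a.n, List.range a.n)) (by unfold MI; fun_prop) (by fun_prop) ?_ ?_
  · rintro a ⟨Q, S⟩ ⟨h1, h2, h3⟩ H
    obtain ⟨x, h4, h5⟩ := H _ _ (co_iff a ▸ MI_max a.co Q h1) (MI_max a S h2)
    exact h3 _ h4 h5
  · intro a H
    simp only [CIS, not_forall] at H
    obtain ⟨C, T, h1, h2, h3⟩ := H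
    obtain ⟨Q, q1, q2, q3⟩ := max_MI a.co C (co_iff a ▸ h1)
    obtain ⟨S, s1, s2, s3⟩ := max_MI a T h2
    refine ⟨(Q, S), ?_, q2, s2, fun x h4 h5 => ?_⟩
    · have := size_sublist s1
      have : size Q ≤ size (List.range a.n) := size_sublist q1
      simp only [size_pair]
      omega
    · obtain ⟨y, h6, rfl⟩ := (q3 x).1 h4
      obtain ⟨z, h7, h8⟩ := (s3 _).1 h5
      exact h3 ⟨y, h6, Fin.ext h8 ▸ h7⟩

theorem result : NPComplete fun a : Gr => ¬ CIS a.G := by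
  refine ⟨np, sandwich _ (fun _ _ h => h) fun a h S hS u v hu hv e => ?_⟩
  obtain ⟨Q, h1, h2⟩ := ext_clique a.G (SimpleGraph.isClique_pair.2 fun _ => e)
  obtain ⟨s, h3, h4⟩ := h Q S h2 hS
  exact ⟨s, h4, h2.1 h3 (h1 (by simp)) fun e => hu (e ▸ h4),
    h2.1 h3 (h1 (by simp)) fun e => hv (e ▸ h4)⟩

end Pool.Agent.Results.MP_bb030f_lc.Full
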